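import Pool.Agent.Work.MP_db9399_sx.Pre

/-! # MP_db9399, PHASE 2 of exception (iii): usable guards (block AVG, helper46) -/

set_option autoImplicit false

namespace Pool.Agent.Work.MP_db9399_sx.helper46

open Finset Classical
open Pool.Agent.Work.MP_db9399_all (nb)
open Pool.Agent.Work.MP_db9399_sx
open Pool.Agent.Work.MP_db9399_sl (InS Same Gout Gss Gin Gex Out Vert Spt Bip Nsc)
open Pool.Agent.Work.MP_db9399_sw (shs sms wt wl od ac avl SHH Gxh Grh Lgt)

universe u

theorem log8 (B : ℝ) : ∃ d0 : ℕ, ∀ d : ℕ, d0 ≤ d → B ≤ Real.log d ^ 8 := by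
  have h1 : Filter.Tendsto (fun n : ℕ => Real.log (n : ℝ) ^ 8) Filter.atTop Filter.atTop :=
    (Filter.tendsto_pow_atTop (by norm_num)).comp
      (Real.tendsto_log_atTop.comp tendsto_natCast_atTop_atTop)
  obtain ⟨d0, hd0⟩ := Filter.eventually_atTop.1 (h1.eventually_ge_atTop B)
  exact ⟨d0, hd0⟩

theorem mem_nb' {V : Type u} [Fintype V] (G : SimpleGraph V) (v w : V) :
    w ∈ nb G v ↔ G.Adj v w := by
  simp [nb]

/-- AVG -/
theorem stmt_AVG : Stmt_AVG.{u} := by
  intro ζ ε hζ0 hζ1 hε0 hε1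
  obtain ⟨μ, hμ⟩ : ∃ μ : ℝ, μ = min ε ζ := ⟨_, rfl⟩
  have hμ0 : 0 < μ := by rw [hμ]; exact lt_min hε0 hζ0
  have hμε : μ ≤ ε := by rw [hμ]; exact min_le_left _ _
  have hμζ : μ ≤ ζ := by rw [hμ]; exact min_le_right _ _
  obtain ⟨d0, hd0⟩ := log8 (8 / μ)
  refine ⟨μ / 8, μ / 40, by positivity, by positivity, by linarith, d0, ?_⟩
  intro V _ k ι κ θ θ' η δ1 a c G EH d Ys UH Hs Gd c0 tu cc E K0 E1 vb sy u j0 sp hm hd hθ haζ hG
    hζY hHs hGd hLB hLA hOW hE Y hY b hb hbF hbU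
  have hL := hd0 d hd
  obtain ⟨L, hLe⟩ : ∃ L : ℝ, L = Real.log d ^ 8 := ⟨_, rfl⟩
  rw [← hLe] at hL ⊢
  have hL0 : 0 ≤ L := le_trans (by positivity) hL
  have hL1 : 1 ≤ μ / 8 * L := by
    rw [div_le_iff₀ hμ0] at hL
    linarith
  have hYs : Y ∈ Ys := by
    unfold sms shs at hY
    rw [mem_filter, mem_filter] at hY
    exact hY.1.1
  have hYd : Y.card < d := by
    unfold sms shs at hY
    rw [mem_filter, mem_filter] at hY
    exact hY.1.2
  have hd1 : (0 : ℝ) < d := by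
    have : 0 < d := by omega
    exact_mod_cast this
  have hYlow := hG.low Y hYs
  have hY0 : (0 : ℝ) < Y.card := by
    have h1 : (1 - 1 / 100 : ℝ) * d ≤ (1 - θ) * d := mul_le_mul_of_nonneg_right (by linarith) hd1.le
    have h2 : (0 : ℝ) < (1 - 1 / 100 : ℝ) * d := by positivity
    linarith
  have hYd' : (Y.card : ℝ) ≤ d := by exact_mod_cast hYd.le
  -- the number of guards
  have ht0 := (abs_le.1 (hGd.t0 Y hY)).1
  rw [← hLe] at ht0
  -- guards excluded by `E`
  obtain ⟨X1, hX1⟩ : ∃ X1 : Finset V, X1 = (Y ∩ Gd).filter (fun v => b ∈ E v) := ⟨_, rfl⟩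
  have hX1c : (X1.card : ℝ) ≤ 2 * (μ / 40) * L := by
    obtain ⟨i0, hi0⟩ : ∃ i0 : ι, ∀ i, vb b = some i → i = i0 := by
      cases hv : vb b with
      | none => exact ⟨j0, fun i hi => by simp at hi⟩
      | some i' => exact ⟨i', fun i hi => by simpa using hi.symm⟩
    have h1 := hLB.gd Y hY i0
    have h2 := hLA.gd Y hY (sy b).1 (sy b).2
    rw [← hLe] at h1 h2
    have h3 : X1 ⊆ (Y ∩ Gd).filter (fun v => u v = none ∨ u v = some i0) ∪
        (Y ∩ Gd).filter (fun v => sp v = (sy b).1 ∨ sp v = (sy b).2) := by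
      intro v hv
      rw [hX1, mem_filter] at hv
      obtain ⟨hvY, hvE⟩ := hv
      have hvm := hGd.mem v (mem_inter.1 hvY).2
      rw [mem_union, mem_filter, mem_filter]
      cases hu : u v with
      | none => exact Or.inl ⟨hvY, Or.inl rfl⟩
      | some i =>
        rcases hE v i ⟨⟨Y, hYs, (mem_inter.1 hvY).1⟩, hvm.2.1⟩ hvm.1 hu b hvE with h4 | h4
        · left
          refine ⟨hvY, Or.inr ?_⟩
          rw [hi0 i h4.2]
        · exact Or.inr ⟨hvY, h4.2⟩
    have h4 := (card_le_card h3).trans (card_union_le _ _)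
    have h5 : (X1.card : ℝ) ≤ ((Y ∩ Gd).filter (fun v => u v = none ∨ u v = some i0)).card +
        ((Y ∩ Gd).filter (fun v => sp v = (sy b).1 ∨ sp v = (sy b).2)).card := by
      exact_mod_cast h4
    linarith
  -- guards excluded by `UH`
  obtain ⟨X2, hX2⟩ : ∃ X2 : Finset V, X2 = ubl G UH c0 Y b ∩ Gd := ⟨_, rfl⟩
  have hX2c : (X2.card : ℝ) ≤ ((ubl G UH c0 Y b).card / Y.card + μ / 40) * L := by
    rw [hX2, hLe]
    exact hGd.t2 Y hY b
  -- the vertices outside the spots with the colour `b`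
  obtain ⟨W, hW⟩ : ∃ W : Finset V, W = univ.filter (fun w => ¬ InS Ys w ∧ w ∉ UH ∧ cc w = b ∧
      (nb G w ∩ (Y ∩ Gd)).Nonempty) := ⟨_, rfl⟩
  -- all excluded guards
  have hav : ∀ v ∈ Y ∩ Gd, v ∉ X1 → v ∉ X2 → (∀ w ∈ W, ¬ G.Adj w v) →
      v ∈ avl G Ys UH cc E Y b ∩ Gd := by
    intro v hv h1 h2 h3
    have hvm := hGd.mem v (mem_inter.1 hv).2
    rw [mem_inter]
    refine ⟨?_, (mem_inter.1 hv).2⟩
    unfold avl
    rw [mem_filter]
    refine ⟨(mem_inter.1 hv).1, hvm.1, ?_, ?_⟩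
    · intro h4
      apply h1
      rw [hX1, mem_filter]
      exact ⟨hv, h4⟩
    · unfold ac
      rw [mem_image]
      rintro ⟨w, hw, hwb⟩
      rw [mem_filter, mem_nb'] at hw
      by_cases hwU : w ∈ UH
      · have hwc : c0 w = b := by rw [← hOW.cU w hwU]; exact hwb
        by_cases hwY : w ∈ Y
        · apply hbU
          rw [mem_image]
          exact ⟨w, mem_inter.2 ⟨hwY, hwU⟩, hwc⟩
        · apply h2
          rw [hX2, mem_inter]
          refine ⟨?_, (mem_inter.1 hv).2⟩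
          unfold ubl
          rw [mem_filter]
          exact ⟨(mem_inter.1 hv).1, w, hwU, hwY, hw.1, hwc⟩
      · have hwS : ¬ InS Ys w := fun h4 => hwU (hw.2 h4)
        apply h3 w _ hw.1.symm
        rw [hW, mem_filter]
        exact ⟨mem_univ _, hwS, hwU, hwb, v, mem_inter.2 ⟨(mem_nb' G w v).2 hw.1.symm, hv⟩⟩
  have hgd : ∀ w, w ∈ W → ∀ w' ∈ W, w = w' := by
    intro w hw w' hw'
    rw [hW, mem_filter] at hw hw'
    by_contra hne
    exact hOW.gdc Y hY w w' hw.2.1 hw'.2.1 hw.2.2.1 hw'.2.2.1 hne hw.2.2.2.2 hw'.2.2.2.2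
      (hw.2.2.2.1.trans hw'.2.2.2.1.symm)
  -- the count from a set of remaining guards
  have hcnt : ∀ R : Finset V, R ⊆ Y ∩ Gd → (∀ v ∈ R, ∀ w ∈ W, ¬ G.Adj w v) →
      (R.card : ℝ) ≤ X1.card + X2.card + (avl G Ys UH cc E Y b ∩ Gd).card := by
    intro R hR hRW
    have h1 : R ⊆ X1 ∪ X2 ∪ (avl G Ys UH cc E Y b ∩ Gd) := by
      intro v hv
      by_cases h2 : v ∈ X1
      · exact mem_union_left _ (mem_union_left _ h2)
      by_cases h3 : v ∈ X2
      · exact mem_union_left _ (mem_union_right _ h3)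
      exact mem_union_right _ (hav v (hR hv) h2 h3 (hRW v hv))
    have h2 := card_le_card h1
    have h3 := card_union_le (X1 ∪ X2) (avl G Ys UH cc E Y b ∩ Gd)
    have h4 := card_union_le X1 X2
    have h5 : R.card ≤ X1.card + X2.card + (avl G Ys UH cc E Y b ∩ Gd).card := by omega
    exact_mod_cast h5
  by_cases hbig : a * Y.card < ((ubl G UH c0 Y b).card : ℝ)
  · -- many vertices are blocked by `UH`
    have hWe : ∀ w, w ∉ W := by
      intro w hw
      rw [hW, mem_filter] at hw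
      have h1 := hOW.gdx Y hY w hw.2.1 hw.2.2.1 hw.2.2.2.2
      rw [hw.2.2.2.1] at h1
      linarith
    have h1 := hcnt (Y ∩ Gd) (subset_refl _) (fun v _ w hw => absurd hw (hWe w))
    have h2 : ((ubl G UH c0 Y b).card : ℝ) ≤ (1 - ε + μ / 40) * Y.card := by
      have h3 : ((ubl G UH c0 Y b \ Hs).card : ℝ) < (1 - ε) * Y.card := by
        by_contra h4
        push Not at h4
        apply hbF
        unfold Fyd
        rw [if_pos hY, mem_filter]
        exact ⟨hb, h4⟩
      have h4 : (ubl G UH c0 Y b).card ≤ (ubl G UH c0 Y b \ Hs).card + (Y ∩ Hs).card := by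
        refine le_trans (card_le_card ?_) (card_union_le _ _)
        intro v hv
        rw [mem_union, mem_sdiff, mem_inter]
        by_cases h5 : v ∈ Hs
        · right
          unfold ubl at hv
          rw [mem_filter] at hv
          exact ⟨hv.1, h5⟩
        · exact Or.inl ⟨hv, h5⟩
      have h5 : ((ubl G UH c0 Y b).card : ℝ) ≤
          ((ubl G UH c0 Y b \ Hs).card : ℝ) + ((Y ∩ Hs).card : ℝ) := by exact_mod_cast h4
      have h6 := hHs Y hYs
      linarith
    have h3 : ((ubl G UH c0 Y b).card : ℝ) / Y.card ≤ 1 - ε + μ / 40 := by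
      rw [div_le_iff₀ hY0]
      exact h2
    have h4 : (((ubl G UH c0 Y b).card : ℝ) / Y.card + μ / 40) * L ≤
        (1 - ε + μ / 40 + μ / 40) * L := mul_le_mul_of_nonneg_right (by linarith) hL0
    have h5 : μ * L ≤ ε * L := mul_le_mul_of_nonneg_right hμε hL0
    linarith
  · push Not at hbig
    have h3 : ((ubl G UH c0 Y b).card : ℝ) / Y.card ≤ a := by
      rw [div_le_iff₀ hY0]
      exact hbig
    have h4 : (((ubl G UH c0 Y b).card : ℝ) / Y.card + μ / 40) * L ≤
        (ζ / 4 + μ / 40) * L := mul_le_mul_of_nonneg_right (by linarith) hL0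
    have h5 : μ * L ≤ ζ * L := mul_le_mul_of_nonneg_right hμζ hL0
    have h6 : ζ * L ≤ 1 * L := mul_le_mul_of_nonneg_right hζ1 hL0
    by_cases hWn : W.Nonempty
    · obtain ⟨w, hw⟩ := hWn
      have hw' := hw
      rw [hW, mem_filter] at hw'
      have hwY : w ∉ Y := fun h7 => hw'.2.1 ⟨Y, hYs, h7⟩
      have h7 := hcnt ((Y \ nb G w) ∩ Gd) (by
        intro v hv
        rw [mem_inter, mem_sdiff] at hv
        exact mem_inter.2 ⟨hv.1.1, hv.2⟩) (by
        intro v hv w1 hw1 hadj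
        rw [mem_inter, mem_sdiff, mem_nb'] at hv
        rw [← hgd w hw w1 hw1] at hadj
        exact hv.1.2 hadj)
      have h8 := hGd.t1 Y hY w
      rw [← hLe] at h8
      have h9 := hζY Y hYs w hwY
      have h10 : ζ ≤ ((Y \ nb G w).card : ℝ) / Y.card := by
        rw [le_div_iff₀ hY0]
        have h11 : ζ * Y.card ≤ ζ * d := mul_le_mul_of_nonneg_left hYd' hζ0.le
        linarith
      have h11 : (ζ - μ / 40) * L ≤ (((Y \ nb G w).card : ℝ) / Y.card - μ / 40) * L :=
        mul_le_mul_of_nonneg_right (by linarith) hL0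
      linarith
    · rw [not_nonempty_iff_eq_empty] at hWn
      have h7 := hcnt (Y ∩ Gd) (subset_refl _) (fun v _ w hw => by
        rw [hWn] at hw
        exact absurd hw (notMem_empty _))
      linarith

end Pool.Agent.Work.MP_db9399_sx.helper46
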